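import Pool.Agent.Helper98.TW.Hul
import Pool.Agent.Helper40.TWM.Stmts

/-!
Towers of torus extensions (MP_7a8f48_an): the hull of an ergodic joining in the form which is
used for the isometric extensions.
-/

open MeasureTheory Filter Topology Finset
open scoped ComplexConjugate

namespace Pool.Agent.Helper98.TWM

open Pool.Agent.Helper98.TW
open Pool.Agent.Helper40.TWM (HQ ST_MHQ)
open Pool.Agent.Helper16.AZ (T mm)

/-- MHQ: the hull of an ergodic joining. -/
theorem st_MHQ (als : ST_ALS) (hul : ST_HUL) : ST_MHQ := by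
  intro N lev f f' hti hmr hne R₀ k G ε hε hG
  have hpm : IsProbabilityMeasure (mm N) := inferInstance
  obtain ⟨L, hL⟩ : ∃ L : ℕ, ∀ i, lev i < L :=
    ⟨Finset.univ.sup lev + 1, fun i => Nat.lt_succ_of_le (Finset.le_sup (Finset.mem_univ i))⟩
  have hAL : AL lev L = (inferInstance : MeasurableSpace (T N)) := (als N lev).2.2.2.2.1 L hL
  have ham : ∀ {F : T N → ℂ}, AEStronglyMeasurable F (mm N) → AM (mm N) (AL lev L) F := by
    intro F hF
    rw [hAL]
    exact hF
  let G' : Fin k → T N → ℂ := fun i x => G i x - ∫ y, G i y ∂(mm N)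
  have hG' : ∀ i, MemLp (G' i) 2 (mm N) := fun i => (hG i).sub (memLp_const _)
  have hG0 : ∀ i, ∫ x, G' i x ∂(mm N) = 0 := by
    intro i
    simp only [G']
    rw [integral_sub ((hG i).integrable (by norm_num)) (integrable_const _)]
    simp
  obtain ⟨q₀, hq₀⟩ := hul N lev f f' hti hmr hne L hL (R₀ ^ 2) ε hε k G' hG' hG0
  refine ⟨q₀, fun q hq hqp p hp hpq κ hκ => ?_⟩
  obtain ⟨hhp, hsm, hve, htr⟩ := hq₀ q hq hqp p hp hpq κ hκ
  refine ⟨CC lev f p q κ L, ⟨hhp.ia, ?_, ?_, ?_⟩, ?_, fun i => ?_⟩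
  · intro ψ hψ hinc M hM hMq hψM
    exact hhp.c ψ hψ (ham hψ.1.aestronglyMeasurable) hinc M hM hMq hψM
  · intro ψ hψ hinc
    exact hhp.s ψ hψ (ham hψ.1.aestronglyMeasurable) hinc
  · intro E hE hE0 hrk
    refine hsm (fun _ => 1) uf_one ?_ E hE hE0 ?_ hrk
    · exact inc_one
    · intro F _
      refine ham ?_
      simpa using (Lp.aestronglyMeasurable F)
  · intro F hF hF2 hF0
    exact hve F hF hF2 (ham hF.aestronglyMeasurable) hF0
  · refine le_of_eq_of_le ?_ (htr i)
    have hle : Lm (CC lev f p q κ L) := hhp.ia.1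
    have hsf : SigmaFinite ((mm N).trim hle) :=
      @IsFiniteMeasure.toSigmaFinite _ _ _ (isFiniteMeasure_trim hle)
    have h1 : (mm N)[G' i|CC lev f p q κ L] =ᵐ[mm N]
        fun x => ((mm N)[G i|CC lev f p q κ L]) x - ∫ y, G i y ∂(mm N) := by
      have h2 := condExp_sub (μ := mm N) ((hG i).integrable (by norm_num))
        (integrable_const (∫ y, G i y ∂(mm N))) (CC lev f p q κ L)
      refine h2.trans ?_
      have h3 : (mm N)[fun _ : T N => ∫ y, G i y ∂(mm N)|CC lev f p q κ L] =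
          fun _ => ∫ y, G i y ∂(mm N) := condExp_const hle _
      filter_upwards with x
      rw [Pi.sub_apply, h3]
    refine integral_congr_ae ?_
    filter_upwards [h1] with x hx
    rw [hx]

end Pool.Agent.Helper98.TWM
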